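import Mathlib

set_option autoImplicit false

/-!
# The free Banach lattice generated by a two-dimensional space can have the Daugavet property
-/

namespace Pool.Agent.Results.MP_207313_an.FreeLatticeDaugavet

open Filter Topology

section Definitions

variable (E : Type*) [NormedAddCommGroup E] [NormedSpace ℝ E]

/-- The finite families `x_1^*, …, x_m^*` with `∑ |x_i^* (x)| ≤ 1` for all `x` in the unit ball. -/
def Adm {m : ℕ} (xs : Fin m → StrongDual ℝ E) : Prop := ∀ x : E, ‖x‖ ≤ 1 → ∑ i, |xs i x| ≤ 1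

/-- The set of the sums whose supremum is the norm of `f`. -/
def normSet (f : StrongDual ℝ E → ℝ) : Set ℝ :=
  {r | ∃ (m : ℕ) (xs : Fin m → StrongDual ℝ E), Adm E xs ∧ r = ∑ i, |f (xs i)|}

/-- Positive homogeneity. -/
def PosHom (f : StrongDual ℝ E → ℝ) : Prop := ∀ (c : ℝ) (ξ : StrongDual ℝ E), 0 ≤ c →
  f (c • ξ) = c * f ξ

variable {E}

theorem normSet_nonneg {f : StrongDual ℝ E → ℝ} {r : ℝ} (hr : r ∈ normSet E f) : 0 ≤ r := by
  obtain ⟨m, xs, _, rfl⟩ := hr
  exact Finset.sum_nonneg fun i _ => abs_nonneg _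

theorem normSet_nonempty (f : StrongDual ℝ E → ℝ) : (0 : ℝ) ∈ normSet E f :=
  ⟨0, fun i => i.elim0, fun x _ => by simp, by simp⟩

variable (E)

/-- The vector space of the positively homogeneous functions with finite norm. -/
def HSub : Submodule ℝ (StrongDual ℝ E → ℝ) where
  carrier := {f | PosHom E f ∧ BddAbove (normSet E f)}
  add_mem' := by
    rintro f g ⟨hf, ⟨A, hA⟩⟩ ⟨hg, ⟨B, hB⟩⟩
    refine ⟨fun c ξ hc => ?_, ⟨A + B, ?_⟩⟩
    · rw [Pi.add_apply, Pi.add_apply, hf c ξ hc, hg c ξ hc]; ring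
    · rintro _ ⟨m, xs, hxs, rfl⟩
      have h1 := hA ⟨m, xs, hxs, rfl⟩
      have h2 := hB ⟨m, xs, hxs, rfl⟩
      calc ∑ i, |(f + g) (xs i)| ≤ ∑ i, (|f (xs i)| + |g (xs i)|) :=
            Finset.sum_le_sum fun i _ => abs_add_le _ _
        _ ≤ A + B := by rw [Finset.sum_add_distrib]; exact add_le_add h1 h2
  zero_mem' := by
    refine ⟨fun c ξ _ => by simp, ⟨0, ?_⟩⟩
    rintro _ ⟨m, xs, _, rfl⟩
    simp
  smul_mem' := by
    rintro a f ⟨hf, ⟨A, hA⟩⟩
    refine ⟨fun c ξ hc => ?_, ⟨|a| * A, ?_⟩⟩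
    · rw [Pi.smul_apply, Pi.smul_apply, hf c ξ hc, smul_eq_mul, smul_eq_mul]; ring
    · rintro _ ⟨m, xs, hxs, rfl⟩
      have h1 := hA ⟨m, xs, hxs, rfl⟩
      calc ∑ i, |(a • f) (xs i)| = |a| * ∑ i, |f (xs i)| := by
            rw [Finset.mul_sum]
            exact Finset.sum_congr rfl fun i _ => by rw [Pi.smul_apply, smul_eq_mul, abs_mul]
        _ ≤ |a| * A := mul_le_mul_of_nonneg_left h1 (abs_nonneg a)

/-- The space `H[E]`. -/
def H : Type _ := HSub E

noncomputable instance : AddCommGroup (H E) := inferInstanceAs (AddCommGroup (HSub E))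

noncomputable instance : Module ℝ (H E) := inferInstanceAs (Module ℝ (HSub E))

variable {E}

/-- An element of `H[E]` as a function. -/
def H.coeFn (f : H E) : StrongDual ℝ E → ℝ := (show HSub E from f).1

instance : CoeFun (H E) (fun _ => StrongDual ℝ E → ℝ) := ⟨H.coeFn⟩

theorem H.ext {f g : H E} (h : ∀ ξ, f ξ = g ξ) : f = g := Subtype.ext (funext h)

theorem H.add_apply (f g : H E) (ξ : StrongDual ℝ E) : (f + g) ξ = f ξ + g ξ := rfl
theorem H.sub_apply (f g : H E) (ξ : StrongDual ℝ E) : (f - g) ξ = f ξ - g ξ := rfl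
theorem H.smul_apply (c : ℝ) (f : H E) (ξ : StrongDual ℝ E) : (c • f) ξ = c * f ξ := rfl
theorem H.zero_apply (ξ : StrongDual ℝ E) : (0 : H E) ξ = 0 := rfl
theorem H.posHom (f : H E) : PosHom E f := (show HSub E from f).2.1
theorem H.bdd (f : H E) : BddAbove (normSet E f) := (show HSub E from f).2.2

/-- A function with the two properties as an element of `H[E]`. -/
def H.mk (f : StrongDual ℝ E → ℝ) (h1 : PosHom E f) (h2 : BddAbove (normSet E f)) : H E :=
  show HSub E from ⟨f, h1, h2⟩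

theorem H.mk_apply {f : StrongDual ℝ E → ℝ} (h1 : PosHom E f) (h2 : BddAbove (normSet E f))
    (ξ : StrongDual ℝ E) : H.mk f h1 h2 ξ = f ξ := rfl

noncomputable instance : Norm (H E) := ⟨fun f => sSup (normSet E f)⟩

theorem H.sum_le (f : H E) {m : ℕ} {xs : Fin m → StrongDual ℝ E} (hxs : Adm E xs) :
    ∑ i, |f (xs i)| ≤ ‖f‖ := le_csSup f.bdd ⟨m, xs, hxs, rfl⟩

theorem H.norm_le {f : H E} {C : ℝ}
    (h : ∀ (m : ℕ) (xs : Fin m → StrongDual ℝ E), Adm E xs → ∑ i, |f (xs i)| ≤ C) : ‖f‖ ≤ C :=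
  csSup_le ⟨0, normSet_nonempty _⟩ (by rintro _ ⟨m, xs, hxs, rfl⟩; exact h m xs hxs)

theorem H.norm_nonneg' (f : H E) : 0 ≤ ‖f‖ := le_csSup f.bdd (normSet_nonempty _)

theorem adm_single {ξ : StrongDual ℝ E} (h : ‖ξ‖ ≤ 1) : Adm E (fun _ : Fin 1 => ξ) := by
  intro x hx
  rw [Fin.sum_univ_one]
  have h1 := ξ.le_opNorm x
  rw [Real.norm_eq_abs] at h1
  exact h1.trans (mul_le_one₀ h (norm_nonneg _) hx)

theorem H.abs_le (f : H E) (ξ : StrongDual ℝ E) : |f ξ| ≤ ‖f‖ * ‖ξ‖ := by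
  by_cases h : ξ = 0
  · have h1 := f.posHom 0 0 le_rfl
    rw [smul_zero, zero_mul] at h1
    rw [h, h1, abs_zero, norm_zero, mul_zero]
  · have h0 : 0 < ‖ξ‖ := norm_pos_iff.mpr h
    have h1 : ‖‖ξ‖⁻¹ • ξ‖ ≤ 1 := by
      rw [norm_smul, norm_inv, norm_norm, inv_mul_cancel₀ h0.ne']
    have h2 := f.sum_le (adm_single h1)
    rw [Fin.sum_univ_one, f.posHom _ _ (by positivity), abs_mul, abs_inv, abs_of_pos h0] at h2
    rw [inv_mul_le_iff₀ h0] at h2
    linarith

theorem H.core : NormedSpace.Core ℝ (H E) where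
  norm_nonneg := H.norm_nonneg'
  norm_smul c f := by
    have key : ∀ (c : ℝ) (f : H E), ‖c • f‖ ≤ |c| * ‖f‖ := by
      intro c f
      apply H.norm_le
      intro m xs hxs
      have h1 := f.sum_le hxs
      calc ∑ i, |(c • f) (xs i)| = |c| * ∑ i, |f (xs i)| := by
            rw [Finset.mul_sum]
            exact Finset.sum_congr rfl fun i _ => by rw [H.smul_apply, abs_mul]
        _ ≤ |c| * ‖f‖ := mul_le_mul_of_nonneg_left h1 (abs_nonneg c)
    rw [Real.norm_eq_abs]
    apply le_antisymm (key c f)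
    by_cases hc : c = 0
    · rw [hc, abs_zero, zero_mul]; exact H.norm_nonneg' _
    · have h1 := key c⁻¹ (c • f)
      rw [inv_smul_smul₀ hc, abs_inv] at h1
      have h2 : 0 < |c| := abs_pos.mpr hc
      calc |c| * ‖f‖ ≤ |c| * (|c|⁻¹ * ‖c • f‖) := mul_le_mul_of_nonneg_left h1 h2.le
        _ = ‖c • f‖ := by rw [← mul_assoc, mul_inv_cancel₀ h2.ne', one_mul]
  norm_triangle f g := by
    apply H.norm_le
    intro m xs hxs
    calc ∑ i, |(f + g) (xs i)| ≤ ∑ i, (|f (xs i)| + |g (xs i)|) :=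
          Finset.sum_le_sum fun i _ => abs_add_le _ _
      _ ≤ ‖f‖ + ‖g‖ := by
          rw [Finset.sum_add_distrib]; exact add_le_add (f.sum_le hxs) (g.sum_le hxs)
  norm_eq_zero_iff f := by
    constructor
    · intro h
      apply H.ext
      intro ξ
      have h1 := f.abs_le ξ
      rw [h, zero_mul] at h1
      exact abs_nonpos_iff.mp h1
    · rintro rfl
      apply le_antisymm
      · apply H.norm_le
        intro m xs _
        simp [H.zero_apply]
      · exact H.norm_nonneg' _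

noncomputable instance : NormedAddCommGroup (H E) := NormedAddCommGroup.ofCore H.core

noncomputable instance : NormedSpace ℝ (H E) := NormedSpace.ofCore H.core

/-- The generators `δ_x`. -/
noncomputable def del (x : E) : H E :=
  H.mk (fun ξ => ξ x) (fun c ξ _ => rfl) ⟨‖x‖, by
    rintro _ ⟨m, xs, hxs, rfl⟩
    by_cases h : x = 0
    · subst h; simp
    · have h0 : 0 < ‖x‖ := norm_pos_iff.mpr h
      have h1 := hxs (‖x‖⁻¹ • x) (by rw [norm_smul, norm_inv, norm_norm, inv_mul_cancel₀ h0.ne'])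
      have h2 : ∀ i, |xs i (‖x‖⁻¹ • x)| = ‖x‖⁻¹ * |xs i x| := fun i => by
        rw [map_smul, smul_eq_mul, abs_mul, abs_inv, abs_norm]
      rw [Finset.sum_congr rfl fun i _ => h2 i, ← Finset.mul_sum, inv_mul_le_iff₀ h0, mul_one] at h1
      exact h1⟩

/-- Vector sublattices of `H[E]` (for the pointwise lattice operations). -/
def IsSublattice (L : Submodule ℝ (H E)) : Prop :=
  ∀ f ∈ L, ∀ g ∈ L, ∀ h : H E, (∀ ξ, h ξ = max (f ξ) (g ξ)) → h ∈ L

variable (E)

/-- The vector sublattice generated by the `δ_x`. -/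
noncomputable def gen : Submodule ℝ (H E) := sInf {L | (∀ x : E, del x ∈ L) ∧ IsSublattice L}

/-- The free Banach lattice `FBL[E]`. -/
noncomputable def FBL : Submodule ℝ (H E) := (gen E).topologicalClosure

/-- The Daugavet property: `‖I + T‖ = 1 + ‖T‖` for all bounded rank-one operators
`T = (y ↦ f(y) x)`. -/
def DaugavetProperty (X : Type*) [NormedAddCommGroup X] [NormedSpace ℝ X] : Prop :=
  ∀ (f : X →L[ℝ] ℝ) (x : X), f ≠ 0 → x ≠ 0 →
    ‖ContinuousLinearMap.id ℝ X + f.smulRight x‖ = 1 + ‖f.smulRight x‖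

end Definitions

/-! ### General facts on the generated sublattice -/

section General

variable {E : Type*} [NormedAddCommGroup E] [NormedSpace ℝ E]

theorem del_mem_gen (x : E) : del x ∈ gen E := by
  unfold gen
  rw [Submodule.mem_sInf]
  intro L hL
  exact hL.1 x

theorem gen_sublattice : IsSublattice (gen E) := by
  intro f hf g hg h hh
  unfold gen at hf hg ⊢
  rw [Submodule.mem_sInf] at hf hg ⊢
  intro L hL
  exact hL.2 f (hf L hL) g (hg L hL) h hh

theorem gen_le {L : Submodule ℝ (H E)} (h1 : ∀ x, del x ∈ L) (h2 : IsSublattice L) :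
    gen E ≤ L := sInf_le ⟨h1, h2⟩

/-- The maximum of two elements of `H[E]`. -/
noncomputable def H.sup (f g : H E) : H E :=
  H.mk (fun ξ => max (f ξ) (g ξ)) (fun c ξ hc => by
    dsimp only
    rw [f.posHom c ξ hc, g.posHom c ξ hc, mul_max_of_nonneg _ _ hc]) ⟨‖f‖ + ‖g‖, by
    rintro _ ⟨m, xs, hxs, rfl⟩
    calc ∑ i, |max (f (xs i)) (g (xs i))| ≤ ∑ i, (|f (xs i)| + |g (xs i)|) := by
          apply Finset.sum_le_sum
          intro i _
          rcases max_choice (f (xs i)) (g (xs i)) with h | h <;> rw [h]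
          · linarith [abs_nonneg (g (xs i))]
          · linarith [abs_nonneg (f (xs i))]
      _ ≤ ‖f‖ + ‖g‖ := by
          rw [Finset.sum_add_distrib]; exact add_le_add (f.sum_le hxs) (g.sum_le hxs)⟩

theorem H.sup_apply (f g : H E) (ξ : StrongDual ℝ E) : f.sup g ξ = max (f ξ) (g ξ) := rfl

theorem sup_mem_gen {f g : H E} (hf : f ∈ gen E) (hg : g ∈ gen E) : f.sup g ∈ gen E :=
  gen_sublattice f hf g hg _ fun _ => rfl

/-- The elements which are continuous functions. -/
noncomputable def contSub (E : Type*) [NormedAddCommGroup E] [NormedSpace ℝ E] :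
    Submodule ℝ (H E) where
  carrier := {f | Continuous fun ξ => f ξ}
  add_mem' := fun hf hg => hf.add hg
  zero_mem' := continuous_const
  smul_mem' := fun c _ hf => hf.const_mul c

theorem gen_cont : gen E ≤ contSub E := by
  apply gen_le
  · intro x
    change Continuous fun ξ : StrongDual ℝ E => ξ x
    fun_prop
  · intro f hf g hg h hh
    change Continuous fun ξ => h ξ
    have : (fun ξ => h ξ) = fun ξ => max (f ξ) (g ξ) := funext hh
    rw [this]
    exact Continuous.max hf hg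

theorem FBL_cont {f : H E} (hf : f ∈ FBL E) : Continuous fun ξ => f ξ := by
  have hf' : f ∈ closure (gen E : Set (H E)) := hf
  rw [continuous_iff_continuousAt]
  intro ξ
  rw [Metric.continuousAt_iff]
  intro ε hε
  have h0 : 0 < ε / 3 / (‖ξ‖ + 1) := by positivity
  obtain ⟨g, hg, hfg⟩ := Metric.mem_closure_iff.mp hf' _ h0
  rw [dist_eq_norm] at hfg
  have hgc : Continuous fun ξ => g ξ := gen_cont hg
  obtain ⟨δ, hδ, hδ'⟩ := Metric.continuousAt_iff.mp (continuous_iff_continuousAt.mp hgc ξ) (ε / 3)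
    (by positivity)
  refine ⟨min δ 1, lt_min hδ one_pos, fun η hη => ?_⟩
  have h1 := hδ' (lt_of_lt_of_le hη (min_le_left _ _))
  have h2 : ‖η‖ ≤ ‖ξ‖ + 1 := by
    have h3 := lt_of_lt_of_le hη (min_le_right _ _)
    rw [dist_eq_norm] at h3
    have h4 := norm_sub_norm_le η ξ
    linarith
  have h3 : ∀ ζ : StrongDual ℝ E, ‖ζ‖ ≤ ‖ξ‖ + 1 → |f ζ - g ζ| ≤ ε / 3 := by
    intro ζ hζ
    have h4 := (f - g).abs_le ζ
    rw [H.sub_apply] at h4
    refine h4.trans ?_
    calc ‖f - g‖ * ‖ζ‖ ≤ ε / 3 / (‖ξ‖ + 1) * (‖ξ‖ + 1) :=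
          mul_le_mul hfg.le hζ (norm_nonneg _) h0.le
      _ = ε / 3 := by field_simp
  have h4 := h3 η h2
  have h5 := h3 ξ (by linarith)
  rw [Real.dist_eq] at h1 ⊢
  have h6 : f η - f ξ = (f η - g η) + (g η - g ξ) + (g ξ - f ξ) := by ring
  rw [h6]
  have h7 := abs_add_le ((f η - g η) + (g η - g ξ)) (g ξ - f ξ)
  have h8 := abs_add_le (f η - g η) (g η - g ξ)
  rw [abs_sub_comm (g ξ) (f ξ)] at h7
  linarith

end General

/-! ### The space `E = ℓ₁²` -/

/-- The two-dimensional `ℓ₁` space. -/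
abbrev E := PiLp 1 (fun _ : Fin 2 => ℝ)

/-- Its dual. -/
abbrev D := StrongDual ℝ E

/-- The unit vectors. -/
noncomputable def e (i : Fin 2) : E := WithLp.toLp 1 (Pi.single i 1)

theorem norm_E (x : E) : ‖x‖ = |x 0| + |x 1| := by
  rw [PiLp.norm_eq_of_L1, Fin.sum_univ_two]; rfl

theorem e_apply (i j : Fin 2) : e i j = if j = i then 1 else 0 := by
  change (Pi.single i (1 : ℝ) : Fin 2 → ℝ) j = _
  rw [Pi.single_apply]

theorem norm_e (i : Fin 2) : ‖e i‖ = 1 := by
  rw [norm_E, e_apply, e_apply]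
  fin_cases i <;> simp

theorem E_eq (x : E) : x = x 0 • e 0 + x 1 • e 1 := by
  ext j
  rw [PiLp.add_apply, PiLp.smul_apply, PiLp.smul_apply, e_apply, e_apply]
  fin_cases j <;> simp

/-- The coordinates of a functional. -/
noncomputable def p (ξ : D) : ℝ := ξ (e 0)
/-- The coordinates of a functional. -/
noncomputable def q (ξ : D) : ℝ := ξ (e 1)

theorem D_apply (ξ : D) (x : E) : ξ x = x 0 * p ξ + x 1 * q ξ := by
  conv_lhs => rw [E_eq x]
  rw [map_add, map_smul, map_smul]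
  rfl

theorem D_ext {ξ η : D} (h1 : p ξ = p η) (h2 : q ξ = q η) : ξ = η := by
  ext x
  rw [D_apply, D_apply, h1, h2]

theorem p_add (ξ η : D) : p (ξ + η) = p ξ + p η := rfl
theorem q_add (ξ η : D) : q (ξ + η) = q ξ + q η := rfl
theorem p_smul (c : ℝ) (ξ : D) : p (c • ξ) = c * p ξ := rfl
theorem q_smul (c : ℝ) (ξ : D) : q (c • ξ) = c * q ξ := rfl

theorem abs_p_le (ξ : D) : |p ξ| ≤ ‖ξ‖ := by
  have := ξ.le_opNorm (e 0)
  rwa [norm_e, mul_one, Real.norm_eq_abs] at this

theorem abs_q_le (ξ : D) : |q ξ| ≤ ‖ξ‖ := by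
  have := ξ.le_opNorm (e 1)
  rwa [norm_e, mul_one, Real.norm_eq_abs] at this

theorem norm_D_le (ξ : D) : ‖ξ‖ ≤ max |p ξ| |q ξ| := by
  apply ContinuousLinearMap.opNorm_le_bound _ (le_max_of_le_left (abs_nonneg _))
  intro x
  rw [D_apply, Real.norm_eq_abs, norm_E]
  have h1 := abs_add_le (x 0 * p ξ) (x 1 * q ξ)
  rw [abs_mul, abs_mul] at h1
  have h2 := mul_le_mul_of_nonneg_left (le_max_left |p ξ| |q ξ|) (abs_nonneg (x 0))
  have h3 := mul_le_mul_of_nonneg_left (le_max_right |p ξ| |q ξ|) (abs_nonneg (x 1))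
  linarith

theorem norm_D_le' (ξ : D) : ‖ξ‖ ≤ |p ξ| + |q ξ| := by
  refine (norm_D_le ξ).trans (max_le ?_ ?_)
  · linarith [abs_nonneg (q ξ)]
  · linarith [abs_nonneg (p ξ)]

theorem adm_iff {m : ℕ} {xs : Fin m → D} :
    Adm E xs ↔ ∑ i, |p (xs i)| ≤ 1 ∧ ∑ i, |q (xs i)| ≤ 1 := by
  constructor
  · intro h
    exact ⟨h (e 0) (norm_e 0).le, h (e 1) (norm_e 1).le⟩
  · rintro ⟨h1, h2⟩ x hx
    rw [norm_E] at hx
    calc ∑ i, |xs i x| ≤ ∑ i, (|x 0| * |p (xs i)| + |x 1| * |q (xs i)|) := by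
          apply Finset.sum_le_sum
          intro i _
          rw [D_apply]
          have := abs_add_le (x 0 * p (xs i)) (x 1 * q (xs i))
          rwa [abs_mul, abs_mul] at this
      _ = |x 0| * ∑ i, |p (xs i)| + |x 1| * ∑ i, |q (xs i)| := by
          rw [Finset.sum_add_distrib, Finset.mul_sum, Finset.mul_sum]
      _ ≤ |x 0| * 1 + |x 1| * 1 :=
          add_le_add (mul_le_mul_of_nonneg_left h1 (abs_nonneg _))
            (mul_le_mul_of_nonneg_left h2 (abs_nonneg _))
      _ ≤ 1 := by linarith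

/-- A functional with given coordinates. -/
noncomputable def mkD (a b : ℝ) : D :=
  LinearMap.mkContinuous
    { toFun := fun x : E => x 0 * a + x 1 * b
      map_add' := fun x y => by rw [PiLp.add_apply, PiLp.add_apply]; ring
      map_smul' := fun c x => by
        rw [PiLp.smul_apply, PiLp.smul_apply, smul_eq_mul, smul_eq_mul, RingHom.id_apply,
          smul_eq_mul]
        ring } (|a| + |b|) (fun x => by
      rw [norm_E, Real.norm_eq_abs]
      change |x 0 * a + x 1 * b| ≤ _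
      have h1 := abs_add_le (x 0 * a) (x 1 * b)
      rw [abs_mul, abs_mul] at h1
      nlinarith [abs_nonneg (x 0), abs_nonneg (x 1), abs_nonneg a, abs_nonneg b])

theorem p_mkD (a b : ℝ) : p (mkD a b) = a := by
  change (e 0) 0 * a + (e 0) 1 * b = a
  rw [e_apply, e_apply]; simp

theorem q_mkD (a b : ℝ) : q (mkD a b) = b := by
  change (e 1) 0 * a + (e 1) 1 * b = b
  rw [e_apply, e_apply]; simp

instance : FiniteDimensional ℝ D := inferInstance

instance : ProperSpace D := FiniteDimensional.proper ℝ D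

/-- Continuous positively homogeneous functions belong to `H[E]`. -/
theorem bdd_of_cont {f : D → ℝ} (h1 : Continuous f) (h2 : PosHom E f) :
    BddAbove (normSet E f) := by
  obtain ⟨C, hC⟩ := (isCompact_closedBall (0 : D) 1).exists_bound_of_continuousOn h1.continuousOn
  have hC0 : 0 ≤ C := (norm_nonneg _).trans (hC 0 (by simp))
  have h3 : ∀ ξ, |f ξ| ≤ C * ‖ξ‖ := by
    intro ξ
    by_cases h : ξ = 0
    · have h4 := h2 0 0 le_rfl
      rw [smul_zero, zero_mul] at h4
      rw [h, h4, abs_zero, norm_zero, mul_zero]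
    · have h0 : 0 < ‖ξ‖ := by
        have := ContinuousLinearMap.opNorm_nonneg ξ
        exact lt_of_le_of_ne this (Ne.symm (norm_ne_zero_iff.mpr h))
      have h4 := hC (‖ξ‖⁻¹ • ξ) (by
        rw [mem_closedBall_zero_iff, norm_smul, norm_inv, norm_norm, inv_mul_cancel₀ h0.ne'])
      rw [h2 _ _ (by positivity), Real.norm_eq_abs, abs_mul, abs_inv, abs_of_pos h0,
        inv_mul_le_iff₀ h0] at h4
      linarith
  refine ⟨2 * C, ?_⟩
  rintro _ ⟨m, xs, hxs, rfl⟩
  obtain ⟨h4, h5⟩ := adm_iff.mp hxs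
  calc ∑ i, |f (xs i)| ≤ ∑ i, C * (|p (xs i)| + |q (xs i)|) :=
        Finset.sum_le_sum fun i _ => (h3 _).trans (mul_le_mul_of_nonneg_left (norm_D_le' _) hC0)
    _ = C * (∑ i, |p (xs i)| + ∑ i, |q (xs i)|) := by
        rw [← Finset.mul_sum, Finset.sum_add_distrib]
    _ ≤ C * (1 + 1) := mul_le_mul_of_nonneg_left (add_le_add h4 h5) hC0
    _ = 2 * C := by ring

theorem norm_le_of_majorant {f : H E} {a b : ℝ} (ha : 0 ≤ a) (hb : 0 ≤ b)
    (h : ∀ ξ, |f ξ| ≤ a * |p ξ| + b * |q ξ|) : ‖f‖ ≤ a + b := by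
  apply H.norm_le
  intro m xs hxs
  obtain ⟨h4, h5⟩ := adm_iff.mp hxs
  calc ∑ i, |f (xs i)| ≤ ∑ i, (a * |p (xs i)| + b * |q (xs i)|) :=
        Finset.sum_le_sum fun i _ => h _
    _ = a * ∑ i, |p (xs i)| + b * ∑ i, |q (xs i)| := by
        rw [Finset.sum_add_distrib, Finset.mul_sum, Finset.mul_sum]
    _ ≤ a * 1 + b * 1 := add_le_add (mul_le_mul_of_nonneg_left h4 ha)
        (mul_le_mul_of_nonneg_left h5 hb)
    _ = a + b := by ring

/-! ### Continuous positively homogeneous functions belong to the free Banach lattice -/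

/-- The unit sphere of the dual. -/
abbrev S := Metric.sphere (0 : D) 1

instance : CompactSpace S := isCompact_iff_compactSpace.mp (isCompact_sphere 0 1)

/-- Restriction of an element of the generated sublattice to the sphere. -/
noncomputable def res (g : H E) (hg : g ∈ gen E) : C(S, ℝ) :=
  ⟨fun ξ => g ξ.1, (gen_cont hg : Continuous fun ξ => g ξ).comp continuous_subtype_val⟩

/-- The set of the restrictions. -/
def resSet : Set C(S, ℝ) := {φ | ∃ (g : H E) (hg : g ∈ gen E), φ = res g hg}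

/-- The element `|p| + |q|`. -/
noncomputable def absP (g : H E) : H E := g.sup (-g)

theorem absP_apply (g : H E) (ξ : D) : absP g ξ = |g ξ| := by
  unfold absP
  rw [H.sup_apply]
  rfl

theorem absP_mem {g : H E} (hg : g ∈ gen E) : absP g ∈ gen E :=
  sup_mem_gen hg (Submodule.neg_mem _ hg)

theorem del_e0 (ξ : D) : del (e 0) ξ = p ξ := rfl
theorem del_e1 (ξ : D) : del (e 1) ξ = q ξ := rfl

/-- The element `|p| + |q|` of the generated sublattice. -/
noncomputable def unit' : H E := absP (del (e 0)) + absP (del (e 1))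

theorem unit'_mem : unit' ∈ gen E :=
  Submodule.add_mem _ (absP_mem (del_mem_gen _)) (absP_mem (del_mem_gen _))

theorem unit'_apply (ξ : D) : unit' ξ = |p ξ| + |q ξ| := by
  unfold unit'
  rw [H.add_apply, absP_apply, absP_apply, del_e0, del_e1]

theorem norm_sphere (ξ : S) : ‖ξ.1‖ = 1 := by
  have := ξ.2
  rwa [mem_sphere_zero_iff_norm] at this

theorem unit'_pos (ξ : S) : 0 < unit' ξ.1 := by
  have h1 := norm_D_le' ξ.1
  rw [norm_sphere] at h1
  rw [unit'_apply]
  linarith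

theorem separates : resSet.SeparatesPointsStrongly := by
  intro v ξ η
  -- it suffices to find an element of the generated sublattice with given values
  suffices h : ∃ g : H E, g ∈ gen E ∧ g ξ.1 = v ξ ∧ g η.1 = v η by
    obtain ⟨g, hg, h1, h2⟩ := h
    exact ⟨res g hg, ⟨g, hg, rfl⟩, h1, h2⟩
  by_cases hξη : ξ = η
  · subst hξη
    refine ⟨(v ξ / unit' ξ.1) • unit', Submodule.smul_mem _ _ unit'_mem, ?_, ?_⟩ <;>
    · rw [H.smul_apply, div_mul_cancel₀ _ (unit'_pos ξ).ne']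
  · -- some evaluation, divided by the unit, separates the points
    have key : ∃ x : E, del x ξ.1 * unit' η.1 ≠ del x η.1 * unit' ξ.1 := by
      by_contra hcon
      push Not at hcon
      have h0 := hcon (e 0)
      have h1 := hcon (e 1)
      rw [del_e0, del_e0] at h0
      rw [del_e1, del_e1] at h1
      have hu := unit'_pos ξ
      have hu' := unit'_pos η
      have h2 : unit' η.1 • ξ.1 = unit' ξ.1 • η.1 := by
        apply D_ext
        · rw [p_smul, p_smul]; linarith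
        · rw [q_smul, q_smul]; linarith
      have h3 : ‖unit' η.1 • ξ.1‖ = ‖unit' ξ.1 • η.1‖ := by rw [h2]
      rw [norm_smul, norm_smul, norm_sphere, norm_sphere, Real.norm_eq_abs, Real.norm_eq_abs,
        abs_of_pos hu, abs_of_pos hu', mul_one, mul_one] at h3
      rw [h3] at h2
      exact hξη (Subtype.ext (smul_right_injective D hu.ne' h2))
    obtain ⟨x, hx⟩ := key
    set d : ℝ := del x ξ.1 * unit' η.1 - del x η.1 * unit' ξ.1 with hd
    have hd0 : d ≠ 0 := sub_ne_zero.mpr hx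
    refine ⟨((v ξ * unit' η.1 - v η * unit' ξ.1) / d) • del x +
      ((del x ξ.1 * v η - del x η.1 * v ξ) / d) • unit',
      Submodule.add_mem _ (Submodule.smul_mem _ _ (del_mem_gen x))
        (Submodule.smul_mem _ _ unit'_mem), ?_, ?_⟩
    · rw [H.add_apply, H.smul_apply, H.smul_apply]
      field_simp
      rw [hd]; ring
    · rw [H.add_apply, H.smul_apply, H.smul_apply]
      field_simp
      rw [hd]; ring

theorem closure_resSet : closure resSet = ⊤ := by
  apply ContinuousMap.sublattice_closure_eq_top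
  · exact ⟨_, 0, Submodule.zero_mem _, rfl⟩
  · rintro _ ⟨f, hf, rfl⟩ _ ⟨g, hg, rfl⟩
    refine ⟨-((-f).sup (-g)), Submodule.neg_mem _ (sup_mem_gen (Submodule.neg_mem _ hf)
      (Submodule.neg_mem _ hg)), ?_⟩
    ext ξ
    rw [ContinuousMap.inf_apply]
    change min (f ξ.1) (g ξ.1) = -(max (-(f ξ.1)) (-(g ξ.1)))
    rw [max_neg_neg, neg_neg]
  · rintro _ ⟨f, hf, rfl⟩ _ ⟨g, hg, rfl⟩
    refine ⟨f.sup g, sup_mem_gen hf hg, ?_⟩
    ext ξ
    rw [ContinuousMap.sup_apply]
    rfl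
  · exact separates

theorem mem_FBL_of_cont {f : H E} (hf : Continuous fun ξ => f ξ) : f ∈ FBL E := by
  have h : f ∈ closure (gen E : Set (H E)) := by
    rw [Metric.mem_closure_iff]
    intro ε hε
    set φ : C(S, ℝ) := ⟨fun ξ => f ξ.1, hf.comp continuous_subtype_val⟩ with hφ
    have h1 : φ ∈ closure resSet := by rw [closure_resSet]; trivial
    obtain ⟨_, ⟨g, hg, rfl⟩, hfg⟩ := Metric.mem_closure_iff.mp h1 (ε / 3) (by positivity)
    refine ⟨g, hg, ?_⟩
    rw [dist_eq_norm]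
    have h2 : ∀ ξ : S, |f ξ.1 - g ξ.1| ≤ ε / 3 := by
      intro ξ
      have h3 := ContinuousMap.dist_apply_le_dist (f := φ) (g := res g hg) ξ
      rw [Real.dist_eq] at h3
      exact h3.trans hfg.le
    have h3 : ∀ ξ, |(f - g) ξ| ≤ ε / 3 * |p ξ| + ε / 3 * |q ξ| := by
      intro ξ
      have h6 : |(f - g) ξ| ≤ ε / 3 * ‖ξ‖ := by
        by_cases hξ : ξ = 0
        · have h4 := (f - g).posHom 0 0 le_rfl
          rw [smul_zero, zero_mul] at h4
          rw [hξ, h4, abs_zero, norm_zero, mul_zero]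
        · have h0 : 0 < ‖ξ‖ := by
            have := ContinuousLinearMap.opNorm_nonneg ξ
            exact lt_of_le_of_ne this (Ne.symm (norm_ne_zero_iff.mpr hξ))
          have h4 := h2 ⟨‖ξ‖⁻¹ • ξ, by
            rw [mem_sphere_zero_iff_norm, norm_smul, norm_inv, norm_norm,
              inv_mul_cancel₀ h0.ne']⟩
          have h5 : (f - g) (‖ξ‖⁻¹ • ξ) = ‖ξ‖⁻¹ * (f - g) ξ :=
            (f - g).posHom _ _ (by positivity)
          have h7 : |(f - g) (‖ξ‖⁻¹ • ξ)| ≤ ε / 3 := h4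
          rw [h5, abs_mul, abs_inv, abs_of_pos h0, inv_mul_le_iff₀ h0] at h7
          linarith
      refine h6.trans ?_
      have := mul_le_mul_of_nonneg_left (norm_D_le' ξ) (by positivity : (0 : ℝ) ≤ ε / 3)
      linarith
    have h4 := norm_le_of_majorant (by positivity) (by positivity) h3
    linarith
  exact h

/-- An element of the free Banach lattice given by a continuous function. -/
noncomputable def mkF (f : D → ℝ) (h1 : Continuous f) (h2 : PosHom E f) : FBL E :=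
  ⟨H.mk f h2 (bdd_of_cont h1 h2), mem_FBL_of_cont h1⟩

theorem mkF_apply {f : D → ℝ} (h1 : Continuous f) (h2 : PosHom E f) (ξ : D) :
    (mkF f h1 h2).1 ξ = f ξ := rfl

/-! ### Majorants -/

/-- An element of norm at most one has a majorant `a |p| + (1 - a) |q|`. -/
theorem exists_majorant (g : H E) (hg : ‖g‖ ≤ 1) :
    ∃ a : ℝ, 0 ≤ a ∧ a ≤ 1 ∧ ∀ ξ, |g ξ| ≤ a * |p ξ| + (1 - a) * |q ξ| := by
  by_contra hcon
  push Not at hcon
  -- one vector
  have one : ∀ ξ : D, |g ξ| ≤ max |p ξ| |q ξ| := by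
    intro ξ
    have h1 := g.abs_le ξ
    have h2 := norm_D_le ξ
    have h3 := mul_le_mul_of_nonneg_right hg (ContinuousLinearMap.opNorm_nonneg ξ)
    linarith
  -- two vectors on different sides
  have two : ∀ (ξ η : D) (a : ℝ), 0 ≤ a → a ≤ 1 → |q ξ| < |p ξ| → |p η| < |q η| →
      a * |p ξ| + (1 - a) * |q ξ| < |g ξ| → a * |p η| + (1 - a) * |q η| < |g η| → False := by
    intro ξ η a ha ha1 h1 h2 h3 h4
    set s : ℝ := |q η| - |p η| with hs
    set t : ℝ := |p ξ| - |q ξ| with ht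
    have hs0 : 0 < s := by linarith
    have ht0 : 0 < t := by linarith
    set Z : ℝ := s * |p ξ| + t * |p η| with hZ
    have hZ' : Z = s * |q ξ| + t * |q η| := by rw [hZ, hs, ht]; ring
    have hZ0 : 0 < Z := by
      have h5 : 0 < |p ξ| := lt_of_le_of_lt (abs_nonneg _) h1
      have := mul_pos hs0 h5
      have := mul_nonneg ht0.le (abs_nonneg (p η))
      rw [hZ]; linarith
    have h5 : Adm E ![(s / Z) • ξ, (t / Z) • η] := by
      rw [adm_iff, Fin.sum_univ_two, Fin.sum_univ_two]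
      simp only [Matrix.cons_val_zero, Matrix.cons_val_one, p_smul, q_smul, abs_mul, abs_div,
        abs_of_pos hs0, abs_of_pos ht0, abs_of_pos hZ0]
      constructor
      · have : s / Z * |p ξ| + t / Z * |p η| = Z / Z := by rw [hZ]; field_simp
        rw [this, div_self hZ0.ne']
      · have : s / Z * |q ξ| + t / Z * |q η| = (s * |q ξ| + t * |q η|) / Z := by field_simp
        rw [this, ← hZ', div_self hZ0.ne']
    have h6 := g.sum_le h5
    rw [Fin.sum_univ_two] at h6
    simp only [Matrix.cons_val_zero, Matrix.cons_val_one] at h6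
    rw [g.posHom _ _ (by positivity), g.posHom _ _ (by positivity), abs_mul, abs_mul,
      abs_of_pos (div_pos hs0 hZ0), abs_of_pos (div_pos ht0 hZ0)] at h6
    have h7 : s * |g ξ| + t * |g η| ≤ Z := by
      have : s / Z * |g ξ| + t / Z * |g η| = (s * |g ξ| + t * |g η|) / Z := by field_simp
      rw [this] at h6
      have h8 := h6.trans hg
      rwa [div_le_one hZ0] at h8
    have h8 := mul_lt_mul_of_pos_left h3 hs0
    have h9 := mul_lt_mul_of_pos_left h4 ht0
    have h10 : s * (a * |p ξ| + (1 - a) * |q ξ|) + t * (a * |p η| + (1 - a) * |q η|) = Z := by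
      have : s * (a * |p ξ| + (1 - a) * |q ξ|) + t * (a * |p η| + (1 - a) * |q η|) =
        a * (s * |p ξ| + t * |p η|) + (1 - a) * (s * |q ξ| + t * |q η|) := by ring
      rw [this, ← hZ, ← hZ']; ring
    linarith
  -- the set of the parameters excluded by vectors of the left type
  set A : Set ℝ := {a | 0 ≤ a ∧ a ≤ 1 ∧ (a = 0 ∨ ∃ ξ : D, |q ξ| < |p ξ| ∧
    a * |p ξ| + (1 - a) * |q ξ| < |g ξ|)} with hA
  have hA0 : (0 : ℝ) ∈ A := ⟨le_rfl, zero_le_one, Or.inl rfl⟩
  have hAb : BddAbove A := ⟨1, fun a ha => ha.2.1⟩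
  set α : ℝ := sSup A with hα
  have hα0 : 0 ≤ α := le_csSup hAb hA0
  have hα1 : α ≤ 1 := csSup_le ⟨0, hA0⟩ fun a ha => ha.2.1
  obtain ⟨η, hη⟩ := hcon α hα0 hα1
  rcases lt_trichotomy |q η| |p η| with h | h | h
  · -- left type: a larger parameter is excluded as well
    have hα1' : α < 1 := by
      by_contra h1
      have h2 : α = 1 := le_antisymm hα1 (not_lt.mp h1)
      rw [h2] at hη
      have h3 := one η
      rw [max_eq_left h.le] at h3
      linarith
    set t : ℝ := |p η| - |q η| with ht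
    have ht0 : 0 < t := by linarith
    set c : ℝ := |g η| - (α * |p η| + (1 - α) * |q η|) with hc
    have hc0 : 0 < c := by linarith
    set β : ℝ := min 1 (α + c / (2 * t)) with hβ
    have hβ1 : β ≤ 1 := min_le_left _ _
    have hβα : α < β := lt_min hα1' (by have := div_pos hc0 (by positivity : 0 < 2 * t); linarith)
    have hβc : β ≤ α + c / (2 * t) := min_le_right _ _
    have hβA : β ∈ A := by
      refine ⟨by linarith, hβ1, Or.inr ⟨η, h, ?_⟩⟩
      have h1 : β * |p η| + (1 - β) * |q η| = (α * |p η| + (1 - α) * |q η|) + (β - α) * t := by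
        rw [ht]; ring
      have h2 : (β - α) * t ≤ c / (2 * t) * t := mul_le_mul_of_nonneg_right (by linarith) ht0.le
      have h3 : c / (2 * t) * t = c / 2 := by field_simp
      rw [h1]
      linarith
    exact absurd (le_csSup hAb hβA) (not_le.mpr hβα)
  · -- equality: impossible
    have h1 := one η
    rw [h, max_self] at h1
    rw [h] at hη
    have : α * |p η| + (1 - α) * |p η| = |p η| := by ring
    linarith
  · -- right type
    have hα0' : 0 < α := by
      by_contra h1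
      have h2 : α = 0 := le_antisymm (not_lt.mp h1) hα0
      rw [h2] at hη
      have h3 := one η
      rw [max_eq_right h.le] at h3
      linarith
    set t : ℝ := |q η| - |p η| with ht
    have ht0 : 0 < t := by linarith
    set c : ℝ := |g η| - (α * |p η| + (1 - α) * |q η|) with hc
    have hc0 : 0 < c := by linarith
    -- parameters slightly below `α` are excluded by `η`
    have hlow : max 0 (α - c / t) < α :=
      max_lt hα0' (by have := div_pos hc0 ht0; linarith)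
    obtain ⟨b, hb, hb'⟩ := exists_lt_of_lt_csSup ⟨0, hA0⟩ hlow
    have hb0 : 0 < b := lt_of_le_of_lt (le_max_left _ _) hb'
    have hbα : b ≤ α := le_csSup hAb hb
    obtain ⟨_, hb1, hb2⟩ := hb
    obtain ⟨ξ, hξ1, hξ2⟩ := hb2.resolve_left hb0.ne'
    refine two ξ η b hb0.le hb1 hξ1 h hξ2 ?_
    have h1 : b * |p η| + (1 - b) * |q η| = (α * |p η| + (1 - α) * |q η|) + (α - b) * t := by
      rw [ht]; ring
    have h2 : α - c / t < b := lt_of_le_of_lt (le_max_right _ _) hb'
    have h3 : (α - b) * t < c / t * t := mul_lt_mul_of_pos_right (by linarith) ht0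
    have h4 : c / t * t = c := div_mul_cancel₀ _ ht0.ne'
    rw [h1]
    linarith

/-! ### Choice of directions -/

theorem infinite_near {n₀ : D} (hn₀ : ‖n₀‖ = 1) {δ : ℝ} (hδ : 0 < δ) :
    {n : D | ‖n‖ = 1 ∧ ‖n - n₀‖ < δ}.Infinite := by
  obtain ⟨w, L, M, hL1, hL2, hM⟩ : ∃ (w : D) (L M : D →L[ℝ] ℝ), L w = 0 ∧ L n₀ ≠ 0 ∧ M w ≠ 0 := by
    have hp : ∀ ξ : D, (ContinuousLinearMap.apply ℝ ℝ (e 0)) ξ = p ξ := fun _ => rfl
    have hq : ∀ ξ : D, (ContinuousLinearMap.apply ℝ ℝ (e 1)) ξ = q ξ := fun _ => rfl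
    by_cases h : q n₀ = 0
    · refine ⟨mkD 0 1, ContinuousLinearMap.apply ℝ ℝ (e 0), ContinuousLinearMap.apply ℝ ℝ (e 1),
        ?_, ?_, ?_⟩
      · rw [hp, p_mkD]
      · rw [hp]
        intro h1
        have h2 := norm_D_le' n₀
        rw [h, h1, hn₀, abs_zero, add_zero] at h2
        linarith
      · rw [hq, q_mkD]; exact one_ne_zero
    · refine ⟨mkD 1 0, ContinuousLinearMap.apply ℝ ℝ (e 1), ContinuousLinearMap.apply ℝ ℝ (e 0),
        ?_, ?_, ?_⟩
      · rw [hq, q_mkD]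
      · rw [hq]; exact h
      · rw [hp, p_mkD]; exact one_ne_zero
  set A : ℝ → D := fun τ => n₀ + τ • w with hA
  have hLA : ∀ τ, L (A τ) = L n₀ := fun τ => by
    rw [hA]; dsimp only
    rw [map_add, map_smul, hL1, smul_zero, add_zero]
  have hA0 : ∀ τ, A τ ≠ 0 := by
    intro τ h
    have := hLA τ
    rw [h, map_zero] at this
    exact hL2 this.symm
  have hAn : ∀ τ, 0 < ‖A τ‖ := fun τ =>
    lt_of_le_of_ne (ContinuousLinearMap.opNorm_nonneg _) (Ne.symm (norm_ne_zero_iff.mpr (hA0 τ)))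
  have hAc : Continuous A := by rw [hA]; fun_prop
  set c : ℝ → D := fun τ => ‖A τ‖⁻¹ • A τ with hc
  have hcc : Continuous c := (hAc.norm.inv₀ fun τ => (hAn τ).ne').smul hAc
  have hc1 : ∀ τ, ‖c τ‖ = 1 := fun τ => by
    rw [hc]; dsimp only
    rw [norm_smul, norm_inv, norm_norm, inv_mul_cancel₀ (hAn τ).ne']
  have hc0 : c 0 = n₀ := by
    have : A 0 = n₀ := by rw [hA]; dsimp only; rw [zero_smul, add_zero]
    rw [hc]; dsimp only
    rw [this, hn₀, inv_one, one_smul]
  have hinj : Function.Injective c := by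
    intro τ σ h
    have h1 : L (c τ) = L (c σ) := by rw [h]
    have h2 : ∀ τ, L (c τ) = ‖A τ‖⁻¹ * L n₀ := fun τ => by
      rw [hc]; dsimp only
      rw [map_smul, hLA, smul_eq_mul]
    rw [h2, h2] at h1
    have h3 : ‖A τ‖⁻¹ = ‖A σ‖⁻¹ := mul_right_cancel₀ hL2 h1
    have h4 : A τ = A σ := by
      have h5 : ‖A τ‖⁻¹ • A τ = ‖A σ‖⁻¹ • A σ := h
      rw [h3] at h5
      exact smul_right_injective D (inv_ne_zero (hAn σ).ne') h5
    have h6 : M (A τ) = M (A σ) := by rw [h4]
    rw [hA] at h6; dsimp only at h6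
    rw [map_add, map_add, map_smul, map_smul, smul_eq_mul, smul_eq_mul] at h6
    exact mul_right_cancel₀ hM (add_left_cancel h6)
  have hev : ∀ᶠ τ in 𝓝 (0 : ℝ), ‖c τ - n₀‖ < δ := by
    have h1 : Continuous fun τ => ‖c τ - n₀‖ := (hcc.sub continuous_const).norm
    have h2 := h1.tendsto 0
    rw [hc0, sub_self, norm_zero] at h2
    exact (tendsto_order.mp h2).2 δ hδ
  obtain ⟨ρ, hρ, hρ'⟩ := Metric.eventually_nhds_iff.mp hev
  have hinf : (c '' Set.Ioo 0 ρ).Infinite := (Set.Ioo_infinite hρ).image hinj.injOn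
  refine hinf.mono ?_
  rintro _ ⟨τ, hτ, rfl⟩
  refine ⟨hc1 τ, hρ' ?_⟩
  rw [Real.dist_eq, sub_zero, abs_of_pos hτ.1]
  exact hτ.2

theorem exists_injective_choice {ι α : Type*} [Finite ι] (A : ι → Set α)
    (hA : ∀ i, (A i).Infinite) : ∃ f : ι → α, Function.Injective f ∧ ∀ i, f i ∈ A i := by
  classical
  have := Fintype.ofFinite ι
  have h1 : ∀ i, ∃ t : Finset α, (t : Set α) ⊆ A i ∧ t.card = Fintype.card ι :=
    fun i => (hA i).exists_subset_card_eq _
  choose t ht ht' using h1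
  obtain ⟨f, hf, hf'⟩ := (Finset.all_card_le_biUnion_card_iff_exists_injective t).mp (by
    intro s
    rcases s.eq_empty_or_nonempty with rfl | ⟨i, hi⟩
    · simp
    · calc s.card ≤ Fintype.card ι := Finset.card_le_univ s
        _ = (t i).card := (ht' i).symm
        _ ≤ (s.biUnion t).card := Finset.card_le_card (Finset.subset_biUnion_of_mem t hi))
  exact ⟨f, hf, fun i => ht i (hf' i)⟩

theorem exists_sep {ι : Type*} [Finite ι] {n : ι → D} (hn : Function.Injective n) :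
    ∃ r : ℝ, 0 < r ∧ ∀ k l, k ≠ l → 2 * r ≤ ‖n k - n l‖ := by
  classical
  rcases isEmpty_or_nonempty ι with h | h
  · exact ⟨1, one_pos, fun k => (IsEmpty.false k).elim⟩
  · obtain ⟨x, hx⟩ := Finite.exists_min
      (fun x : ι × ι => if x.1 = x.2 then (1 : ℝ) else ‖n x.1 - n x.2‖)
    set d : ℝ := if x.1 = x.2 then (1 : ℝ) else ‖n x.1 - n x.2‖ with hd
    have hd0 : 0 < d := by
      rw [hd]
      split_ifs with h1
      · exact one_pos
      · have h2 : n x.1 - n x.2 ≠ 0 := sub_ne_zero.mpr fun h3 => h1 (hn h3)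
        exact lt_of_le_of_ne (ContinuousLinearMap.opNorm_nonneg _)
          (Ne.symm (norm_ne_zero_iff.mpr h2))
    refine ⟨d / 2, by positivity, fun k l hkl => ?_⟩
    have := hx (k, l)
    dsimp only at this
    rw [if_neg hkl] at this
    linarith

/-- The bump functions. -/
noncomputable def bump (n : D) (r : ℝ) (ξ : D) : ℝ := max 0 (‖ξ‖ - ‖ξ - ‖ξ‖ • n‖ / r)

theorem bump_cont (n : D) (r : ℝ) : Continuous (bump n r) := by
  unfold bump
  fun_prop

theorem bump_hom (n : D) (r : ℝ) : PosHom E (bump n r) := by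
  intro c ξ hc
  unfold bump
  have h1 : ‖c • ξ‖ = c * ‖ξ‖ := by rw [norm_smul, Real.norm_eq_abs, abs_of_nonneg hc]
  have h2 : c • ξ - (c * ‖ξ‖) • n = c • (ξ - ‖ξ‖ • n) := by rw [smul_sub, mul_smul]
  have h3 : ‖c • (ξ - ‖ξ‖ • n)‖ = c * ‖ξ - ‖ξ‖ • n‖ := by
    rw [norm_smul, Real.norm_eq_abs, abs_of_nonneg hc]
  rw [h1, h2, h3, mul_max_of_nonneg _ _ hc, mul_zero]
  congr 1
  ring

theorem bump_nonneg (n : D) (r : ℝ) (ξ : D) : 0 ≤ bump n r ξ := le_max_left _ _

theorem bump_self {n : D} (hn : ‖n‖ = 1) (r : ℝ) : bump n r n = 1 := by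
  unfold bump
  rw [hn, one_smul, sub_self, norm_zero, zero_div, sub_zero]
  exact max_eq_right zero_le_one

theorem bump_disjoint {n n' : D} {r : ℝ} (hr : 0 < r) (h : 2 * r ≤ ‖n - n'‖) (ξ : D)
    (h1 : bump n r ξ ≠ 0) : bump n' r ξ = 0 := by
  by_contra h2
  have key : ∀ m : D, bump m r ξ ≠ 0 → ‖ξ - ‖ξ‖ • m‖ < r * ‖ξ‖ := by
    intro m hm
    unfold bump at hm
    by_contra h3
    push Not at h3
    apply hm
    apply max_eq_left
    rw [sub_nonpos, le_div_iff₀ hr]
    linarith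
  have h3 := key n h1
  have h4 := key n' h2
  have h5 : ‖ξ‖ * ‖n - n'‖ ≤ ‖ξ - ‖ξ‖ • n'‖ + ‖ξ - ‖ξ‖ • n‖ := by
    have h6 : (ξ - ‖ξ‖ • n') - (ξ - ‖ξ‖ • n) = ‖ξ‖ • (n - n') := by
      rw [smul_sub]; abel
    have h7 : ‖‖ξ‖ • (n - n')‖ = ‖ξ‖ * ‖n - n'‖ := by rw [norm_smul, norm_norm]
    rw [← h7, ← h6]
    exact norm_sub_le _ _
  have h8 := mul_le_mul_of_nonneg_left h (ContinuousLinearMap.opNorm_nonneg ξ)
  linarith

/-- A sum of numbers of which at most one is nonzero. -/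
theorem abs_sum_le_of_disjoint {ι : Type*} (F : Finset ι) (v : ι → ℝ) {B : ℝ} (hB : 0 ≤ B)
    (h1 : ∀ k ∈ F, |v k| ≤ B) (h2 : ∀ k ∈ F, ∀ l ∈ F, k ≠ l → v k ≠ 0 → v l = 0) :
    |∑ k ∈ F, v k| ≤ B := by
  by_cases h : ∃ k ∈ F, v k ≠ 0
  · obtain ⟨k, hk, hk0⟩ := h
    rw [Finset.sum_eq_single_of_mem k hk fun l hl hlk => h2 k hk l hl (Ne.symm hlk) hk0]
    exact h1 k hk
  · push Not at h
    rw [Finset.sum_eq_zero h, abs_zero]
    exact hB

/-! ### The main estimate -/

/-- Tight families almost computing the norm. -/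
theorem exists_tight (x : H E) {η : ℝ} (hη : 0 < η) : ∃ (M : ℕ) (ys : Fin M → D),
    ∑ i, |p (ys i)| = 1 ∧ ∑ i, |q (ys i)| = 1 ∧ ‖x‖ - η < ∑ i, |x (ys i)| := by
  have h1 : ‖x‖ - η < sSup (normSet E x) := by
    change ‖x‖ - η < ‖x‖
    linarith
  obtain ⟨_, ⟨m, xs, hxs, rfl⟩, h2⟩ := exists_lt_of_lt_csSup ⟨0, normSet_nonempty _⟩ h1
  obtain ⟨h3, h4⟩ := adm_iff.mp hxs
  refine ⟨m + 2, Fin.cons (mkD (1 - ∑ i, |p (xs i)|) 0)
    (Fin.cons (mkD 0 (1 - ∑ i, |q (xs i)|)) xs), ?_, ?_, ?_⟩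
  · rw [Fin.sum_univ_succ, Fin.sum_univ_succ]
    simp only [Fin.cons_zero, Fin.cons_succ, p_mkD, abs_zero]
    rw [abs_of_nonneg (by linarith)]
    ring
  · rw [Fin.sum_univ_succ, Fin.sum_univ_succ]
    simp only [Fin.cons_zero, Fin.cons_succ, q_mkD, abs_zero]
    rw [abs_of_nonneg (by linarith)]
    ring
  · rw [Fin.sum_univ_succ, Fin.sum_univ_succ]
    simp only [Fin.cons_zero, Fin.cons_succ]
    have h5 := abs_nonneg (x (mkD (1 - ∑ i, |p (xs i)|) 0))
    have h6 := abs_nonneg (x (mkD 0 (1 - ∑ i, |q (xs i)|)))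
    linarith

theorem abs_sign_le_one (r : ℝ) : |((SignType.sign r : SignType) : ℝ)| ≤ 1 := by
  rcases lt_trichotomy r 0 with h1 | h1 | h1
  · rw [sign_neg h1]; simp
  · rw [h1]; simp
  · rw [sign_pos h1]; simp


theorem key_estimate (f : FBL E →L[ℝ] ℝ) (x : FBL E) {η : ℝ} (hη : 0 < η)
    (hf : 2 * η < ‖f‖) (hx : 2 * η < ‖x‖) :
    1 - η + (‖f‖ - 2 * η) * (‖x‖ - 2 * η) ≤
      (1 + η) * ‖ContinuousLinearMap.id ℝ (FBL E) + f.smulRight x‖ := by
  -- the element of the ball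
  obtain ⟨g, hg1, hg2⟩ : ∃ g : FBL E, ‖g‖ ≤ 1 ∧ ‖f‖ - η < f g := by
    obtain ⟨y, hy1, hy2⟩ := f.exists_lt_apply_of_lt_opNorm (r := ‖f‖ - η) (by linarith)
    rcases le_total 0 (f y) with h | h
    · exact ⟨y, hy1.le, by rwa [Real.norm_eq_abs, abs_of_nonneg h] at hy2⟩
    · exact ⟨-y, by rw [norm_neg]; exact hy1.le, by
        rw [map_neg]; rwa [Real.norm_eq_abs, abs_of_nonpos h] at hy2⟩
  obtain ⟨a, ha0, ha1, hmaj⟩ := exists_majorant g.1 hg1
  set h : D → ℝ := fun ξ => a * |p ξ| + (1 - a) * |q ξ| with hh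
  have hpc : Continuous p := (ContinuousLinearMap.apply ℝ ℝ (e 0)).continuous
  have hqc : Continuous q := (ContinuousLinearMap.apply ℝ ℝ (e 1)).continuous
  have hhc : Continuous h := by rw [hh]; fun_prop
  have hhh : PosHom E h := by
    intro c ξ hc
    rw [hh]; dsimp only
    rw [p_smul, q_smul, abs_mul, abs_mul, abs_of_nonneg hc]; ring
  have hgc : Continuous fun ξ => g.1 ξ := FBL_cont g.2
  have hxc : Continuous fun ξ => x.1 ξ := FBL_cont x.2
  obtain ⟨M, ys, hys1, hys2, hys3⟩ := exists_tight x.1 hη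
  set κ : ℝ := η / (M + 1) with hκ
  have hκ0 : 0 < κ := by positivity
  have hMκ : (M : ℝ) * κ ≤ η := by
    rw [hκ, mul_div_assoc', div_le_iff₀ (by positivity)]
    nlinarith
  -- neighbourhoods
  have hδ : ∀ i, ∃ δ : ℝ, 0 < δ ∧ ∀ ζ : D, ‖ζ - ys i‖ < δ →
      |x.1 ζ - x.1 (ys i)| < κ ∧ |h ζ - h (ys i)| < κ ∧ |p ζ - p (ys i)| < κ ∧
        |q ζ - q (ys i)| < κ := by
    intro i
    have c1 : ∀ u : D → ℝ, Continuous u → ∀ᶠ ζ in 𝓝 (ys i), |u ζ - u (ys i)| < κ := by
      intro u hu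
      have := (Metric.tendsto_nhds.mp (hu.tendsto (ys i))) κ hκ0
      filter_upwards [this] with ζ hζ
      rwa [Real.dist_eq] at hζ
    obtain ⟨δ, hδ, hδ'⟩ := Metric.eventually_nhds_iff.mp
      ((c1 _ hxc).and ((c1 _ hhc).and ((c1 _ hpc).and (c1 _ hqc))))
    exact ⟨δ, hδ, fun ζ hζ => hδ' (by rwa [dist_eq_norm])⟩
  choose δ hδ0 hδ1 using hδ
  have hAinf : ∀ i, {n : D | ‖n‖ = 1 ∧ ‖‖ys i‖ • n - ys i‖ < δ i}.Infinite := by
    intro i
    by_cases h0 : ys i = 0
    · have hn : ‖‖mkD 1 0‖⁻¹ • mkD 1 0‖ = 1 := by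
        have h1 : mkD 1 0 ≠ 0 := by
          intro h2
          have h3 := p_mkD 1 0
          rw [h2] at h3
          exact zero_ne_one h3
        rw [norm_smul, norm_inv, norm_norm, inv_mul_cancel₀ (norm_ne_zero_iff.mpr h1)]
      refine (infinite_near hn one_pos).mono ?_
      rintro n ⟨hn1, _⟩
      refine ⟨hn1, ?_⟩
      rw [h0, norm_zero, zero_smul, sub_zero, norm_zero]
      exact hδ0 i
    · have hpos : 0 < ‖ys i‖ := lt_of_le_of_ne (ContinuousLinearMap.opNorm_nonneg _)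
        (Ne.symm (norm_ne_zero_iff.mpr h0))
      have hn : ‖‖ys i‖⁻¹ • ys i‖ = 1 := by
        rw [norm_smul, norm_inv, norm_norm, inv_mul_cancel₀ hpos.ne']
      refine (infinite_near hn (div_pos (hδ0 i) hpos)).mono ?_
      rintro n ⟨hn1, hn2⟩
      refine ⟨hn1, ?_⟩
      have h1 : ‖ys i‖ • n - ys i = ‖ys i‖ • (n - ‖ys i‖⁻¹ • ys i) := by
        rw [smul_sub, smul_inv_smul₀ hpos.ne']
      rw [h1, norm_smul, norm_norm]
      rwa [lt_div_iff₀ hpos, mul_comm] at hn2
  -- the number of disjoint modifications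
  obtain ⟨K, hK⟩ := exists_nat_gt (2 * ‖f‖ / η)
  have hfpos : 0 < ‖f‖ := by linarith
  have hK0 : (0 : ℝ) < K := lt_trans (by positivity) hK
  rw [div_lt_iff₀ hη] at hK
  obtain ⟨n, hninj, hn⟩ := exists_injective_choice
    (fun k : Fin K × Fin M => {n : D | ‖n‖ = 1 ∧ ‖‖ys k.2‖ • n - ys k.2‖ < δ k.2})
    (fun k => hAinf k.2)
  obtain ⟨r, hr, hsep⟩ := exists_sep hninj
  set s : Fin M → ℝ := fun i => if 0 ≤ x.1 (ys i) then 1 else -1 with hs
  have hs1 : ∀ i, s i = 1 ∨ s i = -1 := fun i => by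
    rw [hs]; dsimp only; split_ifs <;> simp
  have hsx : ∀ i, s i * x.1 (ys i) = |x.1 (ys i)| := fun i => by
    rw [hs]; dsimp only
    split_ifs with h0
    · rw [one_mul, abs_of_nonneg h0]
    · rw [abs_of_neg (not_le.mp h0)]; ring
  have hsabs : ∀ i, |s i| = 1 := fun i => by
    rcases hs1 i with h0 | h0 <;> rw [h0] <;> simp
  -- the modifications
  set u : Fin K × Fin M → D → ℝ :=
    fun k ξ => s k.2 * min (h ξ - s k.2 * g.1 ξ) (2 * bump (n k) r ξ) with hu
  have hsg : ∀ (i : Fin M) (ξ : D), 0 ≤ h ξ - s i * g.1 ξ ∧ h ξ - s i * g.1 ξ ≤ 2 * h ξ := by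
    intro i ξ
    have h1 := abs_le.mp (hmaj ξ)
    have h2 : h ξ = a * |p ξ| + (1 - a) * |q ξ| := rfl
    rcases hs1 i with h0 | h0 <;> rw [h0] <;> constructor <;> linarith [h1.1, h1.2]
  have hhn : ∀ ξ, 0 ≤ h ξ := fun ξ => (abs_nonneg _).trans (hmaj ξ)
  have huc : ∀ k, Continuous (u k) := fun k => by
    have := bump_cont (n k) r
    rw [hu]; fun_prop
  have huh : ∀ k, PosHom E (u k) := by
    intro k c ξ hc
    rw [hu]; dsimp only
    rw [hhh c ξ hc, g.1.posHom c ξ hc, bump_hom (n k) r c ξ hc]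
    have h1 : c * h ξ - s k.2 * (c * g.1 ξ) = c * (h ξ - s k.2 * g.1 ξ) := by ring
    have h2 : 2 * (c * bump (n k) r ξ) = c * (2 * bump (n k) r ξ) := by ring
    rw [h1, h2, ← mul_min_of_nonneg _ _ hc]
    ring
  have humin : ∀ k ξ, 0 ≤ min (h ξ - s k.2 * g.1 ξ) (2 * bump (n k) r ξ) := fun k ξ =>
    le_min (hsg k.2 ξ).1 (by linarith [bump_nonneg (n k) r ξ])
  have huabs : ∀ k ξ, |u k ξ| ≤ 2 * h ξ := by
    intro k ξ
    rw [hu]; dsimp only
    rw [abs_mul, hsabs, one_mul, abs_of_nonneg (humin k ξ)]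
    exact (min_le_left _ _).trans (hsg k.2 ξ).2
  have huzero : ∀ k l ξ, k ≠ l → u k ξ ≠ 0 → u l ξ = 0 := by
    intro k l ξ hkl h1
    have h2 : bump (n k) r ξ ≠ 0 := by
      intro h3
      apply h1
      rw [hu]; dsimp only
      rw [h3, mul_zero, min_eq_right (hsg k.2 ξ).1, mul_zero]
    have h3 := bump_disjoint hr (hsep k l hkl) ξ h2
    rw [hu]; dsimp only
    rw [h3, mul_zero, min_eq_right (hsg l.2 ξ).1, mul_zero]
  set U : Fin K × Fin M → FBL E := fun k => mkF (u k) (huc k) (huh k) with hU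
  have hUapp : ∀ (F : Finset (Fin K × Fin M)) (ε : Fin K × Fin M → ℝ) (ξ : D),
      (∑ k ∈ F, ε k • U k).1 ξ = ∑ k ∈ F, ε k * u k ξ := by
    intro F ε ξ
    let ev : FBL E →+ ℝ :=
      { toFun := fun y => y.1 ξ
        map_zero' := rfl
        map_add' := fun _ _ => rfl }
    have h1 : ev (∑ k ∈ F, ε k • U k) = ∑ k ∈ F, ev (ε k • U k) := map_sum ev _ _
    exact h1
  have hUsum : ∀ ε : Fin K × Fin M → ℝ, (∀ k, |ε k| ≤ 1) → ‖∑ k, ε k • U k‖ ≤ 2 := by
    intro ε hε
    have h1 : ∀ ξ, |(∑ k, ε k • U k).1 ξ| ≤ 2 * a * |p ξ| + 2 * (1 - a) * |q ξ| := by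
      intro ξ
      rw [hUapp]
      have h2 : 2 * a * |p ξ| + 2 * (1 - a) * |q ξ| = 2 * h ξ := by rw [hh]; ring
      rw [h2]
      apply abs_sum_le_of_disjoint
      · linarith [hhn ξ]
      · intro k _
        rw [abs_mul]
        calc |ε k| * |u k ξ| ≤ 1 * |u k ξ| := mul_le_mul_of_nonneg_right (hε k) (abs_nonneg _)
          _ ≤ 2 * h ξ := by rw [one_mul]; exact huabs k ξ
      · intro k _ l _ hkl hne
        have h3 : u k ξ ≠ 0 := fun h4 => hne (by rw [h4, mul_zero])
        rw [huzero k l ξ hkl h3, mul_zero]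
    have h2 := norm_le_of_majorant (f := (∑ k, ε k • U k).1) (by positivity)
      (by linarith : (0 : ℝ) ≤ 2 * (1 - a)) h1
    have h3 : 2 * a + 2 * (1 - a) = 2 := by ring
    rw [h3] at h2
    exact h2
  -- a modification on which the functional is small
  obtain ⟨j, hj⟩ : ∃ j : Fin K, |f (∑ i, U (j, i))| ≤ η := by
    by_contra hcon
    push Not at hcon
    set σ : Fin K → ℝ := fun j => SignType.sign (f (∑ i, U (j, i))) with hσ
    have hσ1 : ∀ j, |σ j| ≤ 1 := by
      intro j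
      exact abs_sign_le_one _
    have h1 := hUsum (fun k => σ k.1) (fun k => hσ1 k.1)
    have h2 : ∑ k : Fin K × Fin M, σ k.1 • U k = ∑ j, σ j • ∑ i, U (j, i) := by
      rw [Fintype.sum_prod_type]
      exact Finset.sum_congr rfl fun j _ => by rw [Finset.smul_sum]
    rw [h2] at h1
    have h3 : f (∑ j, σ j • ∑ i, U (j, i)) = ∑ j, |f (∑ i, U (j, i))| := by
      rw [map_sum]
      apply Finset.sum_congr rfl
      intro j _
      rw [map_smul, smul_eq_mul, hσ]
      exact sign_mul_self _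
    have h4 : (K : ℝ) * η ≤ ∑ j, |f (∑ i, U (j, i))| := by
      have := Finset.card_nsmul_le_sum Finset.univ (fun j => |f (∑ i, U (j, i))|) η
        (fun j _ => (hcon j).le)
      rwa [Finset.card_univ, Fintype.card_fin, nsmul_eq_mul] at this
    rw [← h3] at h4
    have h5 := f.le_opNorm (∑ j, σ j • ∑ i, U (j, i))
    have h6 := Real.le_norm_self (f (∑ j, σ j • ∑ i, U (j, i)))
    have h7 := mul_le_mul_of_nonneg_left h1 hfpos.le
    linarith
  -- the modified element
  set G : FBL E := g + ∑ i, U (j, i) with hG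
  have hGapp : ∀ ξ, G.1 ξ = g.1 ξ + ∑ i, u (j, i) ξ := by
    intro ξ
    let ev : FBL E →+ ℝ :=
      { toFun := fun y => y.1 ξ
        map_zero' := rfl
        map_add' := fun _ _ => rfl }
    have h1 : ev (g + ∑ i, U (j, i)) = ev g + ∑ i, ev (U (j, i)) := by
      rw [map_add, map_sum]
    exact h1
  have hGmaj : ∀ ξ, |G.1 ξ| ≤ a * |p ξ| + (1 - a) * |q ξ| := by
    intro ξ
    rw [hGapp]
    by_cases h1 : ∃ i, u (j, i) ξ ≠ 0
    · obtain ⟨i, hi⟩ := h1
      rw [Finset.sum_eq_single i (fun l _ hl => huzero (j, i) (j, l) ξ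
        (by intro h2; exact hl (Prod.ext_iff.mp h2).2.symm) hi)
        (fun h2 => absurd (Finset.mem_univ _) h2)]
      have h2 := humin (j, i) ξ
      have h3 : min (h ξ - s i * g.1 ξ) (2 * bump (n (j, i)) r ξ) ≤ h ξ - s i * g.1 ξ :=
        min_le_left _ _
      have h4 : u (j, i) ξ = s i * min (h ξ - s i * g.1 ξ) (2 * bump (n (j, i)) r ξ) := rfl
      have h5 := abs_le.mp (hmaj ξ)
      have h6 : h ξ = a * |p ξ| + (1 - a) * |q ξ| := rfl
      rw [h4, abs_le]
      rcases hs1 i with h0 | h0 <;> rw [h0] at h2 h3 ⊢ <;>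
        constructor <;> linarith [h5.1, h5.2]
    · push Not at h1
      rw [Finset.sum_eq_zero fun i _ => h1 i, add_zero]
      exact hmaj ξ
  have hGnorm : ‖G‖ ≤ 1 := by
    have h1 := norm_le_of_majorant (f := G.1) ha0 (by linarith : (0 : ℝ) ≤ 1 - a) hGmaj
    have h2 : a + (1 - a) = 1 := by ring
    rw [h2] at h1
    exact h1
  have hfG : ‖f‖ - 2 * η ≤ f G := by
    rw [hG, map_add]
    have := (abs_le.mp hj).1
    linarith
  -- evaluation at the chosen points
  set ζ : Fin M → D := fun i => ‖ys i‖ • n (j, i) with hζ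
  have hζ1 : ∀ i, ‖ζ i - ys i‖ < δ i := fun i => (hn (j, i)).2
  have hGζ : ∀ i, G.1 (ζ i) = s i * h (ζ i) := by
    intro i
    have hn1 : ‖n (j, i)‖ = 1 := (hn (j, i)).1
    have h1 : G.1 (n (j, i)) = s i * h (n (j, i)) := by
      have h2 : bump (n (j, i)) r (n (j, i)) = 1 := bump_self hn1 r
      have hle : h (n (j, i)) ≤ 1 := by
        have h3 := abs_p_le (n (j, i))
        have h4 := abs_q_le (n (j, i))
        rw [hn1] at h3 h4
        have h5 := mul_le_mul_of_nonneg_left h3 ha0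
        have h6 := mul_le_mul_of_nonneg_left h4 (by linarith : (0 : ℝ) ≤ 1 - a)
        have h7 : h (n (j, i)) = a * |p (n (j, i))| + (1 - a) * |q (n (j, i))| := rfl
        linarith
      have hval : u (j, i) (n (j, i)) = s i * (h (n (j, i)) - s i * g.1 (n (j, i))) := by
        change s i * min (h (n (j, i)) - s i * g.1 (n (j, i)))
          (2 * bump (n (j, i)) r (n (j, i))) = _
        rw [h2, min_eq_left]
        have := (hsg i (n (j, i))).2
        linarith
      have hother : ∀ l, l ≠ i → u (j, l) (n (j, i)) = 0 := by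
        intro l hl
        have h3 := bump_disjoint hr (hsep (j, i) (j, l)
          (by intro h4; exact hl (Prod.ext_iff.mp h4).2.symm)) (n (j, i))
          (by rw [h2]; exact one_ne_zero)
        change s l * min (h (n (j, i)) - s l * g.1 (n (j, i)))
          (2 * bump (n (j, l)) r (n (j, i))) = 0
        rw [h3, mul_zero, min_eq_right (hsg l (n (j, i))).1, mul_zero]
      rw [hGapp, Finset.sum_eq_single i (fun l _ hl => hother l hl)
        (fun h3 => absurd (Finset.mem_univ _) h3), hval]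
      rcases hs1 i with h0 | h0 <;> rw [h0] <;> ring
    have h2 : G.1 (ζ i) = ‖ys i‖ * G.1 (n (j, i)) := G.1.posHom _ _ (norm_nonneg _)
    have h3 : h (ζ i) = ‖ys i‖ * h (n (j, i)) := hhh _ _ (norm_nonneg _)
    rw [h2, h3, h1]; ring
  -- the admissible family
  have hadm : Adm E (fun i => (1 + η)⁻¹ • ζ i) := by
    have hpos : (0 : ℝ) < 1 + η := by linarith
    rw [adm_iff]
    constructor
    · have h1 : ∑ i, |p ((1 + η)⁻¹ • ζ i)| = (1 + η)⁻¹ * ∑ i, |p (ζ i)| := by
        rw [Finset.mul_sum]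
        exact Finset.sum_congr rfl fun i _ => by
          rw [p_smul, abs_mul, abs_inv, abs_of_pos hpos]
      rw [h1, inv_mul_le_iff₀ hpos, mul_one]
      calc ∑ i, |p (ζ i)| ≤ ∑ i, (|p (ys i)| + κ) := by
            apply Finset.sum_le_sum
            intro i _
            have h2 := (hδ1 i (ζ i) (hζ1 i)).2.2.1
            have h3 := abs_sub_abs_le_abs_sub (p (ζ i)) (p (ys i))
            linarith
        _ = 1 + M * κ := by
            rw [Finset.sum_add_distrib, hys1, Finset.sum_const, Finset.card_univ,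
              Fintype.card_fin, nsmul_eq_mul]
        _ ≤ 1 + η := by linarith
    · have h1 : ∑ i, |q ((1 + η)⁻¹ • ζ i)| = (1 + η)⁻¹ * ∑ i, |q (ζ i)| := by
        rw [Finset.mul_sum]
        exact Finset.sum_congr rfl fun i _ => by
          rw [q_smul, abs_mul, abs_inv, abs_of_pos hpos]
      rw [h1, inv_mul_le_iff₀ hpos, mul_one]
      calc ∑ i, |q (ζ i)| ≤ ∑ i, (|q (ys i)| + κ) := by
            apply Finset.sum_le_sum
            intro i _
            have h2 := (hδ1 i (ζ i) (hζ1 i)).2.2.2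
            have h3 := abs_sub_abs_le_abs_sub (q (ζ i)) (q (ys i))
            linarith
        _ = 1 + M * κ := by
            rw [Finset.sum_add_distrib, hys2, Finset.sum_const, Finset.card_univ,
              Fintype.card_fin, nsmul_eq_mul]
        _ ≤ 1 + η := by linarith
  -- the final estimate
  set c : ℝ := f G with hc
  have hc0 : 0 ≤ c := by linarith
  have hcx : (G + c • x).1 = G.1 + c • x.1 := rfl
  have e1 : ∑ i, |(G + c • x).1 (ζ i)| ≤ (1 + η) * ‖G + c • x‖ := by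
    have hpos : (0 : ℝ) < 1 + η := by linarith
    have h1 := (G + c • x).1.sum_le hadm
    have h2 : ∑ i, |(G + c • x).1 ((1 + η)⁻¹ • ζ i)| =
        (1 + η)⁻¹ * ∑ i, |(G + c • x).1 (ζ i)| := by
      rw [Finset.mul_sum]
      exact Finset.sum_congr rfl fun i _ => by
        rw [(G + c • x).1.posHom _ _ (by positivity), abs_mul, abs_inv, abs_of_pos hpos]
    rw [h2, inv_mul_le_iff₀ hpos] at h1
    exact h1
  have e2 : 1 - η + c * (‖x‖ - 2 * η) ≤ ∑ i, |(G + c • x).1 (ζ i)| := by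
    have h1 : ∀ i, (h (ys i) - κ) + c * (|x.1 (ys i)| - κ) ≤ |(G + c • x).1 (ζ i)| := by
      intro i
      have h2 : (G + c • x).1 (ζ i) = s i * h (ζ i) + c * x.1 (ζ i) := by
        rw [hcx, H.add_apply, H.smul_apply, hGζ]
      have h3 : s i * ((G + c • x).1 (ζ i)) ≤ |(G + c • x).1 (ζ i)| := by
        have := le_abs_self (s i * ((G + c • x).1 (ζ i)))
        rwa [abs_mul, hsabs, one_mul] at this
      refine le_trans ?_ h3
      rw [h2]
      obtain ⟨d1, d2, -, -⟩ := hδ1 i (ζ i) (hζ1 i)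
      have h4 : s i * (s i * h (ζ i) + c * x.1 (ζ i)) = h (ζ i) + c * (s i * x.1 (ζ i)) := by
        rcases hs1 i with h0 | h0 <;> rw [h0] <;> ring
      rw [h4]
      have h5 : |x.1 (ys i)| - κ ≤ s i * x.1 (ζ i) := by
        rw [← hsx i]
        have h6 := abs_lt.mp d1
        rcases hs1 i with h0 | h0 <;> rw [h0] <;> linarith [h6.1, h6.2]
      have h7 := mul_le_mul_of_nonneg_left h5 hc0
      have h8 := (abs_lt.mp d2).1
      linarith
    have h2 := Finset.sum_le_sum fun i (_ : i ∈ Finset.univ) => h1 i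
    refine le_trans ?_ h2
    rw [Finset.sum_add_distrib, ← Finset.mul_sum, Finset.sum_sub_distrib, Finset.sum_sub_distrib,
      Finset.sum_const, Finset.card_univ, Fintype.card_fin, nsmul_eq_mul]
    have h3 : ∑ i, h (ys i) = 1 := by
      rw [hh]; dsimp only
      rw [Finset.sum_add_distrib, ← Finset.mul_sum, ← Finset.mul_sum, hys1, hys2]; ring
    rw [h3]
    have h4 : ‖x‖ - 2 * η ≤ ∑ i, |x.1 (ys i)| - M * κ := by
      have : ‖x‖ = ‖x.1‖ := rfl
      linarith
    have h5 := mul_le_mul_of_nonneg_left h4 hc0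
    linarith
  have e3 : ‖G + c • x‖ ≤ ‖ContinuousLinearMap.id ℝ (FBL E) + f.smulRight x‖ := by
    have h1 := (ContinuousLinearMap.id ℝ (FBL E) + f.smulRight x).le_opNorm G
    have h2 : (ContinuousLinearMap.id ℝ (FBL E) + f.smulRight x) G = G + c • x := rfl
    rw [h2] at h1
    refine h1.trans ?_
    have := mul_le_mul_of_nonneg_left hGnorm
      (ContinuousLinearMap.opNorm_nonneg (ContinuousLinearMap.id ℝ (FBL E) + f.smulRight x))
    linarith
  have e4 : (‖f‖ - 2 * η) * (‖x‖ - 2 * η) ≤ c * (‖x‖ - 2 * η) :=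
    mul_le_mul_of_nonneg_right hfG (by linarith)
  have e5 := mul_le_mul_of_nonneg_left e3 (by linarith : (0 : ℝ) ≤ 1 + η)
  linarith

theorem daugavet : DaugavetProperty (FBL E) := by
  intro f x hf hx
  apply le_antisymm
  · refine (norm_add_le (ContinuousLinearMap.id ℝ (FBL E)) (f.smulRight x)).trans ?_
    have := ContinuousLinearMap.norm_id_le (𝕜 := ℝ) (E := FBL E)
    linarith
  · rw [ContinuousLinearMap.norm_smulRight_apply]
    set B : ℝ := ‖ContinuousLinearMap.id ℝ (FBL E) + f.smulRight x‖ with hB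
    have hf0 : 0 < ‖f‖ := by
      refine lt_of_le_of_ne (ContinuousLinearMap.opNorm_nonneg _) fun h0 => hf ?_
      ext y
      have h1 := f.le_opNorm y
      rw [← h0, zero_mul] at h1
      simpa using h1
    have hx0 : 0 < ‖x‖ := norm_pos_iff.mpr hx
    have h1 : Tendsto (fun η : ℝ => 1 - η + (‖f‖ - 2 * η) * (‖x‖ - 2 * η)) (𝓝[>] 0)
        (𝓝 (1 - 0 + (‖f‖ - 2 * 0) * (‖x‖ - 2 * 0))) := by
      apply tendsto_nhdsWithin_of_tendsto_nhds
      apply Continuous.tendsto
      fun_prop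
    have h2 : Tendsto (fun η : ℝ => (1 + η) * B) (𝓝[>] 0) (𝓝 ((1 + 0) * B)) := by
      apply tendsto_nhdsWithin_of_tendsto_nhds
      apply Continuous.tendsto
      fun_prop
    have h3 : ∀ᶠ η : ℝ in 𝓝[>] 0, 1 - η + (‖f‖ - 2 * η) * (‖x‖ - 2 * η) ≤ (1 + η) * B := by
      have h4 : ∀ᶠ η : ℝ in 𝓝[>] 0, η ∈ Set.Ioo 0 (min (‖f‖ / 2) (‖x‖ / 2)) :=
        Ioo_mem_nhdsGT (lt_min (by positivity) (by positivity))
      filter_upwards [h4] with η hη
      have h5 := lt_of_lt_of_le hη.2 (min_le_left _ _)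
      have h6 := lt_of_lt_of_le hη.2 (min_le_right _ _)
      exact key_estimate f x hη.1 (by linarith) (by linarith)
    have h7 := le_of_tendsto_of_tendsto h1 h2 h3
    simpa using h7

/-- There is a real Banach space `E` (namely the two-dimensional `ℓ₁` space) such that the free
Banach lattice generated by `E` has the Daugavet property. -/
theorem result : ∃ (E : Type) (_ : NormedAddCommGroup E) (_ : NormedSpace ℝ E),
    CompleteSpace E ∧ Module.finrank ℝ E = 2 ∧ DaugavetProperty (FBL E) :=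
  ⟨E, inferInstance, inferInstance, inferInstance, by
    rw [(WithLp.linearEquiv 1 ℝ (Fin 2 → ℝ)).finrank_eq]; simp, daugavet⟩

end Pool.Agent.Results.MP_207313_an.FreeLatticeDaugavet
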